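import Pool.Agent.MaxTerm59b.Assemble

/-! The exact value of the constant `L` for the maximum term and the maximum modulus of entire functions. -/

namespace Pool.Agent.Results.MP_a70c31_an.ExactValue

open Filter Pool.Agent.MaxTerm59 Pool.Agent.MaxTerm8

/-- `L = 1 / min_{|q| < 1} max_{|z| = 1} |∑_{n ∈ ℤ} q^(n(n-1)/2) z^n|`; the minimum and the supremum `L` are attained,
and `0.585078819 < L < 0.585078821`. -/
theorem result :
    LValue = 1 / KMin ∧
    (∃ q : ℂ, q ≠ 0 ∧ ‖q‖ ≤ 17 / 50 ∧ ThetaMax q = KMin ∧ TransEntire (partialTheta q) ∧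
      liminf (fun r : ℝ => maxTerm (partialTheta q) r / maxMod (partialTheta q) r) atTop = LValue) ∧
    585078819 / 1000000000 < LValue ∧ LValue < 585078821 / 1000000000 :=
  result_of_chain Pool.Agent.MaxTerm59b.chain

end Pool.Agent.Results.MP_a70c31_an.ExactValue
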